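import Pool.Agent.helper82.VD.SpecJ

/-!
# Project VD, block B3, row GD2 (Bowen balls at points of a vertical disc are not larger than discs)
-/

set_option autoImplicit false

open MeasureTheory Filter Set Topology Pool.Agent.VDE Pool.Agent.VD
open scoped ENNReal

namespace Pool.Agent.VDG

/-- Bowen balls decrease in the time and increase in the radius -/
theorem GD2_mono {S : Type} (d : S → S → ℝ) (f : ℝ → S → S) (T T' : ℝ) (x : S) (ε ε' : ℝ) (hT : T' ≤ T) (hε : ε ≤ ε') : BB d f T x ε ⊆ BB d f T' x ε' := by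
  intro y hy s hs
  exact (hy s ⟨hs.1, hs.2.trans hT⟩).trans hε

/-- translations of sets in the section -/
theorem GD2_tr {m : ℕ} (A : Set (EE m)) (a0 : EE m) : volume {a : EE m | a - a0 ∈ A} = volume A := by
  have h := measure_preimage_add ((volume : Measure (EuclideanSpace ℝ (Fin m))).prod (volume : Measure (EuclideanSpace ℝ (Fin m)))) (-a0) A
  have e : (fun a : EE m => -a0 + a) ⁻¹' A = {a : EE m | a - a0 ∈ A} := by
    ext a
    simp only [mem_preimage, mem_ofPred_eq]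
    rw [neg_add_eq_sub]
  rw [← e]
  exact h

/-- translations of sets in the disc -/
theorem GD2_tr2 {m : ℕ} (A : Set (EuclideanSpace ℝ (Fin m))) (w : EuclideanSpace ℝ (Fin m)) :
    volume {w' : EuclideanSpace ℝ (Fin m) | w' - w ∈ A} = volume A := by
  have h := measure_preimage_add (volume : Measure (EuclideanSpace ℝ (Fin m))) (-w) A
  have e : (fun a : EuclideanSpace ℝ (Fin m) => -w + a) ⁻¹' A = {w' : EuclideanSpace ℝ (Fin m) | w' - w ∈ A} := by
    ext a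
    simp only [mem_preimage, mem_ofPred_eq]
    rw [neg_add_eq_sub]
  rw [← e]
  exact h

theorem GD2_norm {m : ℕ} (w : EuclideanSpace ℝ (Fin m)) : ‖((0, w) : EE m)‖ = ‖w‖ := by
  rw [Prod.norm_mk, norm_zero]
  exact max_eq_right (norm_nonneg w)

theorem GD2_proof (hGZD : GZD_stmt) (hGZI : GZI_stmt) (hGZO : GZO_stmt) (hGSX : GSX_stmt) : GD2_stmt := by
  intro m H' C e C1 ν ρ0 hC he hH
  have hC1 := hH.hb.hC
  have hρ0 := hH.hb.hρ
  obtain ⟨ea, C2, hea, ea1, ea2, hC2, gd⟩ := hGZD C e C1 ρ0 hC he hC1 hρ0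
  obtain ⟨eb, ρ1, C3, heb, eb1, eb2, hρ1, hρ1b, hC3, gi⟩ := hGZI C e C1 ρ0 hC he hC1 hρ0
  obtain ⟨ec, ε1, C4, hec, ec1, ec2, hε1, hC4, hC4e, go⟩ := hGZO C e C1 ρ0 hC he hC1 hρ0
  refine ⟨ε1, min ea (min eb ec), hε1, lt_min hea (lt_min heb hec), ?_⟩
  intro e3 ε' ε he3 he34 hε' hε'0 hε hε0
  have q1 : e3 ≤ ea := he34.trans (min_le_left _ _)
  have q2 : e3 ≤ eb := he34.trans ((min_le_right _ _).trans (min_le_left _ _))
  have q3 : e3 ≤ ec := he34.trans ((min_le_right _ _).trans (min_le_right _ _))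
  have hC0 : 0 < C := lt_of_lt_of_le one_pos hC
  have hC30 : 0 < C3 := lt_of_lt_of_le one_pos hC3
  have hC40 : 0 < C4 := lt_of_lt_of_le one_pos hC4
  obtain ⟨ρ, hρdef⟩ : ∃ ρ : ℝ, ρ = C4 * ε := ⟨_, rfl⟩
  have hρ : 0 < ρ := by
    rw [hρdef]
    exact mul_pos hC40 hε
  have hρc : ρ ≤ ec := by
    rw [hρdef]
    exact (mul_le_mul_of_nonneg_left hε0 hC40.le).trans hC4e
  have hρρ0 : ρ ≤ ρ0 := by linarith
  obtain ⟨ρ2, hρ2def⟩ : ∃ ρ2 : ℝ, ρ2 = min ρ1 (min (e3 / 2) (min (ε' / C3) ρ0)) := ⟨_, rfl⟩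
  have hρ2 : 0 < ρ2 := by
    rw [hρ2def]
    exact lt_min hρ1 (lt_min (by linarith) (lt_min (div_pos hε' hC30) hρ0))
  have s1 : ρ2 ≤ ρ1 := by
    rw [hρ2def]
    exact min_le_left _ _
  have s2 : ρ2 ≤ e3 / 2 := by
    rw [hρ2def]
    exact (min_le_right _ _).trans (min_le_left _ _)
  have s3 : C3 * ρ2 ≤ ε' := by
    have h1 : ρ2 ≤ ε' / C3 := by
      rw [hρ2def]
      exact (min_le_right _ _).trans ((min_le_right _ _).trans (min_le_left _ _))
    rw [le_div_iff₀ hC30] at h1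
    linarith
  have s4 : ρ2 ≤ ρ0 := by
    rw [hρ2def]
    exact (min_le_right _ _).trans ((min_le_right _ _).trans (min_le_right _ _))
  obtain ⟨Ca, hCa, ga⟩ := hGSX H' C1 ρ0 hH.hb ρ ρ hρ hρρ0 hρ hρρ0
  obtain ⟨Cb, hCb, gb⟩ := hH.dsc ρ2 ρ hρ2 s4 hρ hρρ0
  refine ⟨max 1 (C * ρ * Ca * Cb), le_max_left _ _, ?_⟩
  intro S _ μ d f H κ F τ hS hR z w T hw hT
  have hn0 : ‖((0, w) : EE m)‖ ≤ e3 := by
    rw [GD2_norm]
    linarith
  obtain ⟨-, -, g3, -⟩ := gd μ d f H H' κ F τ hS hH.hb hR z (0, w) (hn0.trans q1)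
  have gi' := gi μ d f H H' κ F τ hS hH.hb hR z (0, w) (hn0.trans q2)
  have go' := go μ d f H H' κ F τ hS hH.hb hR z (0, w) (hn0.trans q3)
  obtain ⟨n, hn⟩ : ∃ n : ℕ, n = ⌊T⌋₊ := ⟨_, rfl⟩
  have n1 : (n : ℝ) ≤ T := by
    rw [hn]
    exact Nat.floor_le hT
  have n2 : T ≤ ((n + 1 : ℕ) : ℝ) := by
    rw [hn]
    push_cast
    exact (Nat.lt_floor_add_one T).le
  obtain ⟨a1, a2, a3⟩ := ga n 1 (orz f κ F z (0, w)) (by norm_num) g3
  -- the upper bound of the measure of the Bowen ball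
  have hsub : SZ f κ F z (0, w) n ρ ⊆ Metric.closedBall 0 e := by
    intro a ha
    rw [Metric.mem_closedBall, dist_zero_right]
    have h1 : ‖itr (orz f κ F z (0, w)) 0 (a - (0, w))‖ ≤ ρ := ha 0 (Nat.zero_le n)
    have h2 : ‖a - (0, w)‖ ≤ ρ := h1
    have h3 : ‖a‖ ≤ ‖a - (0, w)‖ + ‖((0, w) : EE m)‖ := by
      have h4 := norm_add_le (a - (0, w)) (0, w)
      rwa [sub_add_cancel] at h4
    linarith
  have hcl : IsClosed (SZ f κ F z (0, w) n ρ) := by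
    have h1 : Continuous fun a : EE m => a - (0, w) := continuous_id.sub continuous_const
    exact a1.preimage h1
  have hvol : volume (SZ f κ F z (0, w) n ρ) = volume (SB (orz f κ F z (0, w)) n ρ) := GD2_tr _ _
  have hup : μ (BB d f T (κ z (0, w)) ε) ≤ ENNReal.ofReal (C * ρ) * volume (SB (orz f κ F z (0, w)) n ρ) := by
    rw [← hvol]
    refine (measure_mono (GD2_mono d f T n (κ z (0, w)) ε ε n1 le_rfl)).trans ?_
    have h1 := (go' n ε hε.le hε0).1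
    rw [← hρdef] at h1
    refine (measure_mono h1).trans ?_
    exact hS.sct.mle z _ ρ hsub hcl.measurableSet hρ.le (by linarith)
  -- the disc
  have hdisc := (gb (n + 1) (orz f κ F z (0, w)) (fun i _ => g3 i)).2
  have hfin : volume {v : EuclideanSpace ℝ (Fin m) | ((0, v) : EE m) ∈ SB (orz f κ F z (0, w)) (n + 1) ρ2} ≤
      volume {w' : EuclideanSpace ℝ (Fin m) | ‖w'‖ ≤ e3 ∧ κ z (0, w') ∈ BB d f T (κ z (0, w)) ε'} := by
    rw [← GD2_tr2 {v : EuclideanSpace ℝ (Fin m) | ((0, v) : EE m) ∈ SB (orz f κ F z (0, w)) (n + 1) ρ2} w]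
    refine measure_mono ?_
    intro w' hw'
    have hw2 : ((0, w' - w) : EE m) ∈ SB (orz f κ F z (0, w)) (n + 1) ρ2 := hw'
    have h1 : ‖((0, w' - w) : EE m)‖ ≤ ρ2 := hw2 0 (Nat.zero_le _)
    rw [GD2_norm] at h1
    refine ⟨?_, ?_⟩
    · have h2 := norm_add_le (w' - w) w
      rw [sub_add_cancel] at h2
      linarith
    · have h2 : κ z (0, w') ∈ bxs f κ z (SZ f κ F z (0, w) (n + 1) ρ2) ρ2 := by
        refine ⟨(0, w'), ?_, 0, ?_, ?_⟩
        · change ((0, w') : EE m) - (0, w) ∈ SB (orz f κ F z (0, w)) (n + 1) ρ2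
          have h3 : ((0, w') : EE m) - (0, w) = (0, w' - w) := by
            rw [Prod.mk_sub_mk, sub_zero]
          rw [h3]
          exact hw2
        · rw [abs_zero]
          exact hρ2.le
        · exact (hS.sct.f0 _).symm
      exact GD2_mono d f ((n + 1 : ℕ) : ℝ) T (κ z (0, w)) (C3 * ρ2) ε' n2 s3 (gi' (n + 1) ρ2 hρ2.le s1 h2)
  calc μ (BB d f T (κ z (0, w)) ε) ≤ ENNReal.ofReal (C * ρ) * volume (SB (orz f κ F z (0, w)) n ρ) := hup
    _ ≤ ENNReal.ofReal (C * ρ) * (ENNReal.ofReal Ca * (ENNReal.ofReal Cb *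
          volume {v : EuclideanSpace ℝ (Fin m) | ((0, v) : EE m) ∈ SB (orz f κ F z (0, w)) (n + 1) ρ2})) := by
        gcongr
        refine a2.trans ?_
        gcongr
    _ = ENNReal.ofReal (C * ρ * Ca * Cb) *
          volume {v : EuclideanSpace ℝ (Fin m) | ((0, v) : EE m) ∈ SB (orz f κ F z (0, w)) (n + 1) ρ2} := by
        rw [← mul_assoc, ← mul_assoc, ← ENNReal.ofReal_mul (mul_pos hC0 hρ).le, ← ENNReal.ofReal_mul (mul_pos (mul_pos hC0 hρ) hCa).le]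
    _ ≤ ENNReal.ofReal (max 1 (C * ρ * Ca * Cb)) *
          volume {w' : EuclideanSpace ℝ (Fin m) | ‖w'‖ ≤ e3 ∧ κ z (0, w') ∈ BB d f T (κ z (0, w)) ε'} := by
        refine mul_le_mul' (ENNReal.ofReal_le_ofReal (le_max_right _ _)) hfin

end Pool.Agent.VDG
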